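import Pool.Agent.SepFil.Main

/-!
# A negative answer for near-minimal separating filtrations in finite coverings
-/

open Set SepFil
open scoped ENNReal

namespace Pool.Agent.Results.MP_805050_gt.NegativeAnswer

/-- For every real `C` there is a closed connected orientable Riemannian 3-manifold `M` such that
for every finite-sheeted Riemannian covering `N` of `M` and every `ε > 0` there is an
`ε`-near-minimal `(sys N / 2)`-separating filtration `Z` of `N` with
`Length Z₁ > C (Vol N + ‖N‖)`. -/
theorem result (C : ℝ) : ∃ M : ClosedRiem 3, Orientable 3 M.carrier ∧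
    ∀ (N : ClosedRiem 3) (p : N.carrier → M.carrier), IsRiemCover 3 p → ∀ ε : ℝ, 0 < ε →
      ∃ Z : ℕ → Set N.carrier, IsSepFiltration 3 (sys N.carrier / 2) Z ∧
        IsNearMinimal 3 (sys N.carrier / 2) (ENNReal.ofReal ε) Z ∧
        ENNReal.ofReal C * (area 3 (univ : Set N.carrier) +
          ENNReal.ofReal (simplicialVolume 3 N.carrier)) < area 1 (Z 1) :=
  strong_counterexample C

end Pool.Agent.Results.MP_805050_gt.NegativeAnswer
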